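import Mathlib
import Pool.Agent.H22.Rdv

set_option autoImplicit false
open MeasureTheory

namespace Pool.Agent.Results.MP_925b40_pr.Undirected

/-- Meeting time of the two paths `a + p` and `q` on the circle (`⊤` if they never meet). -/
noncomputable def meet (p q : NNReal → UnitAddCircle) (a : UnitAddCircle) : ENNReal :=
  ⨅ (τ : NNReal) (_ : a + p τ = q τ), (τ : ENNReal)

/-- Expected meeting time of two pure strategies on the undirected circle (group `G₃`). -/
noncomputable def hatT (p q : NNReal → UnitAddCircle) : ENNReal :=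
  2⁻¹ * ∫⁻ a : UnitAddCircle, (meet p q a + meet p (fun τ => - q τ) a)

/-- The coin-half-tour path for the coin tosses `ω`. -/
noncomputable def cohato (ω : ℕ → Bool) (τ : NNReal) : UnitAddCircle :=
  (((∑ j ∈ Finset.range ⌊2 * (τ : ℝ)⌋₊, (if ω j then (1 / 2 : ℝ) else -1 / 2))
    + (if ω ⌊2 * (τ : ℝ)⌋₊ then (1 : ℝ) else -1) * ((τ : ℝ) - (⌊2 * (τ : ℝ)⌋₊ : ℝ) / 2) : ℝ)
      : UnitAddCircle)

/-- Independent fair coins. -/
noncomputable def coins : Measure (ℕ → Bool) :=
  Measure.infinitePi (fun _ : ℕ => (PMF.uniformOfFintype Bool).toMeasure)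

/-- On the undirected circle some mixed strategy, used by both players, has a strictly smaller
expected meeting time than CO-HA-TO. -/
theorem result :
    ∃ μ : @Measure C(NNReal, UnitAddCircle) (borel C(NNReal, UnitAddCircle)),
      IsProbabilityMeasure μ ∧
      (∀ᵐ (f : C(NNReal, UnitAddCircle)) ∂μ, LipschitzWith 1 (⇑f) ∧ f 0 = 0) ∧
      (∫⁻ (f : C(NNReal, UnitAddCircle)), (∫⁻ (g : C(NNReal, UnitAddCircle)), hatT f g ∂μ) ∂μ)
        < ∫⁻ ω₁, (∫⁻ ω₂, hatT (cohato ω₁) (cohato ω₂) ∂coins) ∂coins :=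
  ⟨Pool.Agent.H22.Rdv.μ0, Pool.Agent.H22.Rdv.μ0_prob, Pool.Agent.H22.Rdv.μ0_ae,
    lt_of_lt_of_le Pool.Agent.H22.Rdv.undirected Pool.Agent.H22.Rdv.low_two'⟩

end Pool.Agent.Results.MP_925b40_pr.Undirected
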